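import Pool.Agent.Q166.EO.GG
import Pool.Agent.Q35.EOW.Stm

/-!
# Project EOW of helper35, job EOW-GGW

The asymptotic behaviour of the mean `G`, with weights. The proof is the one of `Pool.Agent.Q166.EO.gg`
(helper166), with the weights carried along.
-/

set_option autoImplicit false
set_option linter.unusedSectionVars false

open NumberField Finset MeasureTheory Filter
open Pool.Agent.Q35.MM (bx dg mem_bx Pts)
open Pool.Agent.Q35.SM (Vs)
open Pool.Agent.Q35.EO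
open Pool.Agent.Q35.EOW
open Pool.Agent.Q166.EO (kap smul_inj mul_fin pt pt_eq kap_int absNorm_ge ideal_fin c1 exX lim_lemma
  min_pos)

namespace Pool.Agent.Q238.EOW

section

variable {K : Type} [Field K] [NumberField K] {ι : Type} [Fintype ι] [DecidableEq ι] {n : ι → ℕ}

/-- Decomposition of the weighted vectors in the boxes along the points. -/
theorem cnt_fibw (U : Vs K n → Prop) (W : Vs K n → ℝ)
    (h1 : ∀ a : ι → K, (∀ i, a i ≠ 0) → ∀ P, U P → U fun i => a i • P i)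
    (h2 : ∀ P, U P → ∀ i, P i ≠ 0)
    (hW : ∀ (a : ι → K) (P : Vs K n), (∀ i, a i ≠ 0) → W (fun i => a i • P i) = W P)
    (I : ι → Ideal (𝓞 K)) (t : ι → (K →+* ℂ) → ℝ) (b : ι → ℕ)
    (X : Finset (Pts K n)) (hX : ∀ x ∈ X, U fun i => (x i).rep)
    (hX2 : ∀ x : Pts K n, (U fun i => (x i).rep) →
      (∀ l, ∃ τ : K, τ ≠ 0 ∧ τ • (x l).rep ∈ bxg K (I l) (t l) (n l + 1) (b l)) → x ∈ X) :
    cntw U W I t b = ∑ x ∈ X, W (fun i => (x i).rep) *
      ∏ l, ((kap K (I l) (t l) (n l + 1) (x l).rep (b l) : ℕ) : ℝ) := by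
  classical
  -- the multiples
  have hrepr : ∀ P : Vs K n, ∀ h : (∀ l, P l ≠ 0), ∀ l, ∃ τ : K, τ ≠ 0 ∧
      P l = τ • (pt P l).rep := by
    intro P h l
    rw [pt_eq P h]
    obtain ⟨a, ha⟩ := Projectivization.exists_smul_eq_mk_rep K (P l) (h l)
    refine ⟨((a⁻¹ : Kˣ) : K), (a⁻¹).ne_zero, ?_⟩
    simp only
    rw [← ha]
    have : ((a⁻¹ : Kˣ) : K) • (a • P l) = (a⁻¹ : Kˣ) • (a • P l) := rfl
    rw [this, inv_smul_smul]
  set S : Finset (Vs K n) := (Fintype.piFinset fun l => bxg K (I l) (t l) (n l + 1) (b l)).filter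
    fun P => U P with hS
  have hScard : cntw U W I t b = ∑ P ∈ S, W P := by
    unfold cntw
    rw [hS]
  have hmaps : ∀ P ∈ S, pt P ∈ X := by
    intro P hP
    rw [hS, Finset.mem_filter, Fintype.mem_piFinset] at hP
    have hne := h2 P hP.2
    choose τ hτ0 hτ using hrepr P hne
    have hU : U fun i => (pt P i).rep := by
      have h3 := h1 (fun i => (τ i)⁻¹) (fun i => inv_ne_zero (hτ0 i)) P hP.2
      have h4 : (fun i => (τ i)⁻¹ • P i) = fun i => (pt P i).rep := by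
        funext i
        conv_lhs => rw [hτ i]
        rw [smul_smul, inv_mul_cancel₀ (hτ0 i), one_smul]
      rwa [h4] at h3
    refine hX2 _ hU fun l => ⟨τ l, hτ0 l, ?_⟩
    rw [← hτ l]
    exact hP.1 l
  rw [hScard, ← Finset.sum_fiberwise_of_maps_to hmaps]
  refine Finset.sum_congr rfl fun x hx => ?_
  have hxU := hX x hx
  have hrep0 : ∀ l, (x l).rep ≠ 0 := fun l => (x l).rep_nonzero
  -- the sets of the multipliers
  set Ts : ∀ l : ι, Finset K := fun l =>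
    (mul_fin (x l).rep (hrep0 l) (bxg K (I l) (t l) (n l + 1) (b l))).toFinset with hTs
  have hTm : ∀ l τ, τ ∈ Ts l ↔ τ ≠ 0 ∧ τ • (x l).rep ∈ bxg K (I l) (t l) (n l + 1) (b l) := by
    intro l τ
    rw [hTs]
    simp only [Set.Finite.mem_toFinset, Set.mem_ofPred_eq]
  have hTc : ∀ l, (Ts l).card = kap K (I l) (t l) (n l + 1) (x l).rep (b l) := by
    intro l
    unfold kap
    rw [hTs]
    simp only
    rw [Set.ncard_eq_toFinset_card _ (mul_fin (x l).rep (hrep0 l) _)]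
  have himage : (S.filter fun P => pt P = x) =
      (Fintype.piFinset Ts).image fun τ l => τ l • (x l).rep := by
    ext P
    rw [Finset.mem_filter, Finset.mem_image, hS, Finset.mem_filter, Fintype.mem_piFinset]
    constructor
    · rintro ⟨⟨hP1, hP2⟩, hP3⟩
      choose τ hτ0 hτ using hrepr P (h2 P hP2)
      rw [hP3] at hτ
      refine ⟨τ, ?_, ?_⟩
      · rw [Fintype.mem_piFinset]
        intro l
        rw [hTm]
        refine ⟨hτ0 l, ?_⟩
        rw [← hτ l]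
        exact hP1 l
      · funext l
        exact (hτ l).symm
    · rintro ⟨τ, hτ, rfl⟩
      rw [Fintype.mem_piFinset] at hτ
      have hτ' : ∀ l, τ l ≠ 0 ∧ τ l • (x l).rep ∈ bxg K (I l) (t l) (n l + 1) (b l) :=
        fun l => (hTm l (τ l)).mp (hτ l)
      have hne : ∀ l, τ l • (x l).rep ≠ 0 := fun l => smul_ne_zero (hτ' l).1 (hrep0 l)
      refine ⟨⟨fun l => (hτ' l).2, h1 τ (fun l => (hτ' l).1) _ hxU⟩, ?_⟩
      rw [pt_eq _ hne]
      funext l
      conv_rhs => rw [← (x l).mk_rep]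
      rw [Projectivization.mk_eq_mk_iff']
      exact ⟨τ l, rfl⟩
  have hcard : (S.filter fun P => pt P = x).card =
      ∏ l, kap K (I l) (t l) (n l + 1) (x l).rep (b l) := by
    rw [himage, Finset.card_image_of_injective, Fintype.card_piFinset]
    · exact Finset.prod_congr rfl fun l _ => hTc l
    · intro τ τ' h
      funext l
      exact smul_inj _ (hrep0 l) (congrFun h l)
  have hconst : ∀ P ∈ S.filter (fun P => pt P = x), W P = W (fun i => (x i).rep) := by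
    intro P hP
    rw [himage, Finset.mem_image] at hP
    obtain ⟨τ, hτ, rfl⟩ := hP
    rw [Fintype.mem_piFinset] at hτ
    exact hW τ (fun i => (x i).rep) fun l => ((hTm l (τ l)).mp (hτ l)).1
  rw [Finset.sum_congr rfl hconst, Finset.sum_const, hcard, nsmul_eq_mul, mul_comm]
  push_cast
  rfl

/-- The mean as a finite sum. -/
theorem gg_sumw (hNO : Pool.Agent.Q35.LO.S_NO) (U : Vs K n → Prop) (W : Vs K n → ℝ) (q d : ℕ)
    (b : ι → ℕ)
    (X : Finset (Pts K n)) (hX : ∀ x ∈ X, U fun i => (x i).rep)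
    (hX3 : ∀ x : Pts K n, (U fun i => (x i).rep) →
      (∀ l, (x l).mulHeight ≤ (b l : ℝ) ^ d) → x ∈ X) :
    GGw (YU U) (fun y => W fun i => (y.1 i).rep) hh q d b =
      ∑ x ∈ X, W (fun i => (x i).rep) * ∏ l, ∑ᶠ 𝔟 ∈ {𝔟 : Ideal (𝓞 K) | 𝔟 ≠ ⊥ ∧
      (Ideal.absNorm 𝔟 : ℝ) * Height.mulHeight (x l).rep ≤ (b l : ℝ) ^ d},
      Real.log ((b l : ℝ) ^ d / ((Ideal.absNorm 𝔟 : ℝ) * Height.mulHeight (x l).rep)) ^ q := by
  classical
  have hrep : ∀ (x : Pts K n) l, Height.mulHeight (x l).rep = (x l).mulHeight := by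
    intro x l
    conv_rhs => rw [← (x l).mk_rep]
    rw [Projectivization.mulHeight_mk]
  simp only [hrep]
  have hIfin : ∀ (x : Pts K n) l, {𝔟 : Ideal (𝓞 K) | 𝔟 ≠ ⊥ ∧
      (Ideal.absNorm 𝔟 : ℝ) * (x l).mulHeight ≤ (b l : ℝ) ^ d}.Finite := by
    intro x l
    refine (ideal_fin (K := K) ((b l : ℝ) ^ d)).subset ?_
    rintro 𝔟 ⟨h1, h2⟩
    have h5 := absNorm_ge h1
    have h6 := (x l).one_le_mulHeight
    have h7 := mul_le_mul_of_nonneg_left h6 (by linarith : (0 : ℝ) ≤ Ideal.absNorm 𝔟)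
    rw [Set.mem_ofPred_eq]
    linarith
  have hYfin := c1 hNO U fun l => (b l : ℝ) ^ d
  unfold GGw
  rw [finsum_mem_eq_finite_toFinset_sum _ hYfin]
  have h1 : ∀ x ∈ X, W (fun i => (x i).rep) * ∏ l, ∑ᶠ 𝔟 ∈ {𝔟 : Ideal (𝓞 K) | 𝔟 ≠ ⊥ ∧
      (Ideal.absNorm 𝔟 : ℝ) * (x l).mulHeight ≤ (b l : ℝ) ^ d},
      Real.log ((b l : ℝ) ^ d / ((Ideal.absNorm 𝔟 : ℝ) * (x l).mulHeight)) ^ q =
      ∑ 𝔟 ∈ Fintype.piFinset fun l => (hIfin x l).toFinset,
        W (fun i => (x i).rep) * ∏ l, Real.log ((b l : ℝ) ^ d / hh l (x, 𝔟)) ^ q := by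
    intro x _
    have h2 : ∀ l, ∑ᶠ 𝔟 ∈ {𝔟 : Ideal (𝓞 K) | 𝔟 ≠ ⊥ ∧
        (Ideal.absNorm 𝔟 : ℝ) * (x l).mulHeight ≤ (b l : ℝ) ^ d},
        Real.log ((b l : ℝ) ^ d / ((Ideal.absNorm 𝔟 : ℝ) * (x l).mulHeight)) ^ q =
        ∑ 𝔟 ∈ (hIfin x l).toFinset,
          Real.log ((b l : ℝ) ^ d / ((Ideal.absNorm 𝔟 : ℝ) * (x l).mulHeight)) ^ q :=
      fun l => finsum_mem_eq_finite_toFinset_sum _ (hIfin x l)
    simp only [h2]
    rw [Finset.prod_univ_sum, Finset.mul_sum]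
    rfl
  rw [Finset.sum_congr rfl h1]
  refine Finset.sum_finset_product _ _ _ ?_
  rintro ⟨x, 𝔟⟩
  rw [Set.Finite.mem_toFinset, Fintype.mem_piFinset]
  simp only [Set.Finite.mem_toFinset, Set.mem_ofPred_eq]
  constructor
  · rintro ⟨⟨h2, h3⟩, h4⟩
    refine ⟨hX3 x h2 fun l => ?_, fun l => ⟨h3 l, h4 l⟩⟩
    have h5 := absNorm_ge (h3 l)
    have h6 := (x l).mulHeight_pos
    have h7 := mul_le_mul_of_nonneg_right h5 h6.le
    have h8 : (Ideal.absNorm (𝔟 l) : ℝ) * (x l).mulHeight ≤ (b l : ℝ) ^ d := h4 l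
    linarith
  · rintro ⟨h2, h3⟩
    exact ⟨⟨hX x h2, fun l => (h3 l).1⟩, fun l => (h3 l).2⟩

end

theorem ggw (hUN : S_UN) (hNO : Pool.Agent.Q35.LO.S_NO) : S_GGW := by
  intro K _ _ ι _ _ n E U w h1 h2 hw0 hw1 hw h3
  classical
  obtain ⟨Ω, mΩ, μ, R0, c0, W, T, hμ, hc0, hW, hR0, hT, hTm, hun⟩ := hUN K
  obtain ⟨IS, hIS⟩ : ∃ IS : Finset (ι → Ideal (𝓞 K)), IS = Fintype.piFinset fun _ => R0 := ⟨_, rfl⟩
  have hISm : ∀ I ∈ IS, ∀ l, I l ∈ R0 := by
    intro I hI l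
    rw [hIS, Fintype.mem_piFinset] at hI
    exact hI l
  set ν : Measure (ι → Ω) := Measure.pi fun _ => μ with hν
  set tt : (ι → Ideal (𝓞 K)) → (ι → Ω) → ι → (K →+* ℂ) → ℝ := fun I ζ l => T (I l) (ζ l) with htt
  have hshp : ∀ I ∈ IS, ∀ ζ l, Shp c0 (tt I ζ l) := fun I hI ζ l => hT _ (hISm I hI l) _
  -- decomposition
  have hdec : ∀ b : ι → ℕ, ∃ X : Finset (Pts K n),
      (∀ I ∈ IS, ∀ ζ, cntw U w I (tt I ζ) b =
        ∑ x ∈ X, w (fun i => (x i).rep) *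
          ∏ l, ((kap K (I l) (T (I l) (ζ l)) (n l + 1) (x l).rep (b l) : ℕ) : ℝ)) ∧
      GGw (YU U) (fun y => w fun i => (y.1 i).rep) hh (Units.rank K) (dg K) b =
        ∑ x ∈ X, w (fun i => (x i).rep) * ∏ l, ∑ᶠ 𝔟 ∈ {𝔟 : Ideal (𝓞 K) | 𝔟 ≠ ⊥ ∧
        (Ideal.absNorm 𝔟 : ℝ) * Height.mulHeight (x l).rep ≤ (b l : ℝ) ^ dg K},
        Real.log ((b l : ℝ) ^ dg K / ((Ideal.absNorm 𝔟 : ℝ) * Height.mulHeight (x l).rep)) ^
          Units.rank K := by
    intro b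
    obtain ⟨X, hX, hX2, hX3⟩ := exX hNO U c0 (dg K) b
    refine ⟨X, fun I hI ζ => ?_, gg_sumw hNO U w _ _ b X hX hX3⟩
    exact cnt_fibw U w h1 h2 hw I (tt I ζ) b X hX (hX2 I (tt I ζ) (hshp I hI ζ))
  have hkint : ∀ I ∈ IS, ∀ (x : Pts K n) (b : ι → ℕ) l, Integrable (fun ζ : Ω =>
      ((kap K (I l) (T (I l) ζ) (n l + 1) (x l).rep (b l) : ℕ) : ℝ)) μ := fun I hI x b l =>
    kap_int μ (I l) (T (I l)) c0 (hT _ (hISm I hI l)) (hTm _) _ _ (x l).rep_nonzero _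
  have hint : ∀ I ∈ IS, ∀ b, Integrable (fun ζ => cntw U w I (tt I ζ) b) ν := by
    intro I hI b
    obtain ⟨X, hX, -⟩ := hdec b
    have h5 : (fun ζ => cntw U w I (tt I ζ) b) = fun ζ =>
        ∑ x ∈ X, w (fun i => (x i).rep) *
          ∏ l, ((kap K (I l) (T (I l) (ζ l)) (n l + 1) (x l).rep (b l) : ℕ) : ℝ) :=
      funext fun ζ => hX I hI ζ
    rw [h5]
    refine integrable_finsetSum _ fun x _ => Integrable.const_mul ?_ _
    exact Integrable.fintype_prod (f := fun l (ζ : Ω) =>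
      ((kap K (I l) (T (I l) ζ) (n l + 1) (x l).rep (b l) : ℕ) : ℝ)) fun l => hkint I hI x b l
  have hident : ∀ b : ι → ℕ, (∀ l, 1 ≤ b l) → ∑ I ∈ IS, ∫ ζ, cntw U w I (tt I ζ) b ∂ν =
      W ^ Fintype.card ι *
        GGw (YU U) (fun y => w fun i => (y.1 i).rep) hh (Units.rank K) (dg K) b := by
    intro b hb
    obtain ⟨X, hX, hXG⟩ := hdec b
    have h5 : ∀ I ∈ IS, ∫ ζ, cntw U w I (tt I ζ) b ∂ν =
        ∑ x ∈ X, w (fun i => (x i).rep) * ∏ l, ∫ ζ : Ω,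
        ((kap K (I l) (T (I l) ζ) (n l + 1) (x l).rep (b l) : ℕ) : ℝ) ∂μ := by
      intro I hI
      simp only [hX I hI]
      rw [integral_finsetSum]
      · refine Finset.sum_congr rfl fun x _ => ?_
        rw [integral_const_mul]
        exact congrArg (fun z => w (fun i => (x i).rep) * z)
          (integral_fintype_prod_eq_prod (f := fun l (ζ : Ω) =>
            ((kap K (I l) (T (I l) ζ) (n l + 1) (x l).rep (b l) : ℕ) : ℝ)))
      · intro x _
        refine Integrable.const_mul ?_ _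
        exact Integrable.fintype_prod (f := fun l (ζ : Ω) =>
          ((kap K (I l) (T (I l) ζ) (n l + 1) (x l).rep (b l) : ℕ) : ℝ)) fun l => hkint I hI x b l
    rw [Finset.sum_congr rfl h5, Finset.sum_comm, hXG, Finset.mul_sum]
    refine Finset.sum_congr rfl fun x _ => ?_
    rw [← Finset.mul_sum, mul_left_comm]
    refine congrArg (fun z => w (fun i => (x i).rep) * z) ?_
    rw [hIS, ← Finset.prod_univ_sum (fun _ => R0) fun l J => ∫ ζ : Ω,
      ((kap K J (T J ζ) (n l + 1) (x l).rep (b l) : ℕ) : ℝ) ∂μ]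
    rw [← Finset.card_univ, ← Finset.prod_const, ← Finset.prod_mul_distrib]
    refine Finset.prod_congr rfl fun l _ => ?_
    exact hun (n l + 1) (x l).rep (x l).rep_nonzero (b l) (hb l)
  -- the estimates
  have h3' : ∀ I ∈ IS, ∃ C η : ℝ, 0 ≤ C ∧ 0 < η ∧
      ∀ t : ι → (K →+* ℂ) → ℝ, (∀ l, Shp c0 (t l)) → ∃ R : ℝ, 0 ≤ R ∧
        ∀ (b : ι → ℕ) (m : ℕ), 1 ≤ m → (∀ l, m ≤ b l) →
          |cntw U w I t b - R * ∏ l, (b l : ℝ) ^ E l| ≤
            C * (m : ℝ) ^ (-η) * ∏ l, (b l : ℝ) ^ E l :=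
    fun I hI => h3 I c0 (fun l => hR0 _ (hISm I hI l)) hc0
  choose! Cf ηf hCf hηf hest using h3'
  obtain ⟨η, hη, hηle⟩ := min_pos IS ηf hηf
  set V0 : ℝ := ν.real Set.univ with hV0
  have hV00 : 0 ≤ V0 := measureReal_nonneg
  set p : (ι → ℕ) → ℝ := fun b => ∏ l, (b l : ℝ) ^ E l with hp
  have hp0 : ∀ b : ι → ℕ, (∀ l, 1 ≤ b l) → 0 < p b := by
    intro b hb
    refine Finset.prod_pos fun l _ => pow_pos ?_ _
    exact_mod_cast hb l
  have hdiff : ∀ I ∈ IS, ∀ (b b' : ι → ℕ) (m : ℕ), 1 ≤ m → (∀ l, m ≤ b l) → (∀ l, m ≤ b' l) →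
      |(∫ ζ, cntw U w I (tt I ζ) b ∂ν) / p b - (∫ ζ, cntw U w I (tt I ζ) b' ∂ν) / p b'| ≤
        2 * Cf I * (m : ℝ) ^ (-η) * V0 := by
    intro I hI b b' m hm hb hb'
    have hpb := hp0 b fun l => le_trans hm (hb l)
    have hpb' := hp0 b' fun l => le_trans hm (hb' l)
    have hm1 : (1 : ℝ) ≤ m := by exact_mod_cast hm
    have hmη : (m : ℝ) ^ (-ηf I) ≤ (m : ℝ) ^ (-η) :=
      Real.rpow_le_rpow_of_exponent_le hm1 (by linarith [hηle I hI])
    rw [← integral_div, ← integral_div, ← integral_sub ((hint I hI b).div_const _)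
      ((hint I hI b').div_const _)]
    have hb3 : ∀ ζ, ‖cntw U w I (tt I ζ) b / p b - cntw U w I (tt I ζ) b' / p b'‖ ≤
        2 * Cf I * (m : ℝ) ^ (-η) := fun ζ => ?_
    · exact norm_integral_le_of_norm_le_const (μ := ν) (Eventually.of_forall hb3)
    obtain ⟨R, -, hR⟩ := hest I hI (tt I ζ) (hshp I hI ζ)
    have e1 := hR b m hm hb
    have e2 := hR b' m hm hb'
    have key : ∀ c : ι → ℕ, 0 < p c → |cntw U w I (tt I ζ) c - R * p c| ≤
        Cf I * (m : ℝ) ^ (-ηf I) * p c →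
        |cntw U w I (tt I ζ) c / p c - R| ≤ Cf I * (m : ℝ) ^ (-η) := by
      intro c hc hcc
      have e3 : cntw U w I (tt I ζ) c / p c - R =
          (cntw U w I (tt I ζ) c - R * p c) / p c := by
        field_simp
      rw [e3, abs_div, abs_of_pos hc, div_le_iff₀ hc]
      refine hcc.trans ?_
      have := hCf I hI
      gcongr
    have k1 := key b hpb e1
    have k2 := key b' hpb' e2
    rw [Real.norm_eq_abs]
    have e4 : cntw U w I (tt I ζ) b / p b - cntw U w I (tt I ζ) b' / p b' =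
        (cntw U w I (tt I ζ) b / p b - R) - (cntw U w I (tt I ζ) b' / p b' - R) := by ring
    rw [e4]
    refine (abs_sub _ _).trans ?_
    linarith
  -- the mean
  set g : (ι → ℕ) → ℝ := fun b =>
    GGw (YU U) (fun y => w fun i => (y.1 i).rep) hh (Units.rank K) (dg K) b / p b with hg
  have hWs : 0 < W ^ Fintype.card ι := pow_pos hW _
  have hgI : ∀ b : ι → ℕ, (∀ l, 1 ≤ b l) → g b =
      (∑ I ∈ IS, (∫ ζ, cntw U w I (tt I ζ) b ∂ν) / p b) / W ^ Fintype.card ι := by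
    intro b hb
    rw [← Finset.sum_div, hident b hb, hg]
    have := hp0 b hb
    field_simp
  obtain ⟨C', hC'⟩ : ∃ C' : ℝ, C' = (∑ I ∈ IS, 2 * Cf I * V0) / W ^ Fintype.card ι := ⟨_, rfl⟩
  have hC'0 : 0 ≤ C' := by
    rw [hC']
    refine div_nonneg (Finset.sum_nonneg fun I hI => ?_) hWs.le
    have := hCf I hI
    positivity
  have hgdiff : ∀ (b b' : ι → ℕ) (m : ℕ), 1 ≤ m → (∀ l, m ≤ b l) → (∀ l, m ≤ b' l) →
      |g b - g b'| ≤ C' * (m : ℝ) ^ (-η) := by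
    intro b b' m hm hb hb'
    rw [hgI b fun l => le_trans hm (hb l), hgI b' fun l => le_trans hm (hb' l), ← sub_div,
      ← Finset.sum_sub_distrib, abs_div, abs_of_pos hWs, div_le_iff₀ hWs]
    refine (Finset.abs_sum_le_sum_abs _ _).trans ?_
    refine (Finset.sum_le_sum fun I hI => hdiff I hI b b' m hm hb hb').trans (le_of_eq ?_)
    rw [hC', div_mul_eq_mul_div, div_mul_cancel₀ _ hWs.ne', Finset.sum_mul]
    exact Finset.sum_congr rfl fun I _ => by ring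
  have hg0 : ∀ b : ι → ℕ, (∀ l, 1 ≤ b l) → 0 ≤ g b := by
    intro b hb
    rw [hgI b hb]
    refine div_nonneg (Finset.sum_nonneg fun I _ => div_nonneg ?_ (hp0 b hb).le) hWs.le
    refine integral_nonneg fun ζ => ?_
    exact Finset.sum_nonneg fun P _ => hw0 P
  obtain ⟨R, hR0', hR⟩ := lim_lemma g C' η hC'0 hη hg0 hgdiff
  refine ⟨R, C', η, hR0', hC'0, hη, fun b m hm hb => ?_⟩
  have hpb := hp0 b fun l => le_trans hm (hb l)
  have h6 := hR b m hm hb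
  have h7 : GGw (YU U) (fun y => w fun i => (y.1 i).rep) hh (Units.rank K) (dg K) b -
      R * ∏ l, (b l : ℝ) ^ E l = (g b - R) * p b := by
    rw [hg, sub_mul]
    simp only
    rw [div_mul_cancel₀ _ hpb.ne']
  rw [h7, abs_mul, abs_of_pos hpb]
  exact mul_le_mul_of_nonneg_right h6 hpb.le

end Pool.Agent.Q238.EOW
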